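import Pool.Agent.H51.CST.Targets

/-!
# Counting zeros
-/

set_option autoImplicit false

open Polynomial Pool.Agent.H51.CST

namespace Pool.Agent.H64.CST

theorem pf_CNT : T_CNT := by
  intro k _ P N M Z hP hN hZ
  obtain ⟨j, hj⟩ : ∃ j, P.coeff j ≠ 0 := by
    by_contra hc
    push Not at hc
    exact hP (Polynomial.ext fun j => by rw [hc j, Polynomial.coeff_zero])
  have h1 : (∏ x0 ∈ Z, (X - C x0) ^ M) ∣ P.coeff j := by
    refine Finset.prod_dvd_of_coprime ?_ (fun x0 hx0 => hZ x0 hx0 j)
    intro a ha b hb hab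
    exact (pairwise_coprime_X_sub_C (s := fun x : k => x) Function.injective_id hab).pow
  have h2 := natDegree_le_of_dvd h1 hj
  have h3 : (∏ x0 ∈ Z, (X - C x0) ^ M : k[X]).natDegree = Z.card * M := by
    rw [natDegree_prod_of_monic _ _ (fun x0 _ => (monic_X_sub_C x0).pow M)]
    simp [natDegree_pow]
  rw [h3] at h2
  exact h2.trans (hN j)

end Pool.Agent.H64.CST
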