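import Pool.Agent.H51.CST.Targets

/-!
# The Newton step
-/

set_option autoImplicit false

open Polynomial Pool.Agent.H51.CST

namespace Pool.Agent.H64.CST

theorem dvd_map_eval {A B : Type} [CommRing A] [CommRing B] (σ τ : A →+* B) (u : B)
    (h : ∀ a, u ∣ σ a - τ a) (P : A[X]) (w : B) :
    u ∣ (P.map σ).eval w - (P.map τ).eval w := by
  rw [eval_map, eval_map, eval₂_eq_sum_range, eval₂_eq_sum_range, ← Finset.sum_sub_distrib]
  refine Finset.dvd_sum fun i _ => ?_
  rw [← sub_mul]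
  exact (h _).mul_right _

theorem sh_dvd {k : Type} [Field k] (mu : k[X][X]) (Del : k[X]) (g : k[X]) :
    (C (aeval (xR mu) Del ^ 2) * X : (AdjoinRoot mu)[X]) ∣
      (Sh mu Del).toRingHom g - (C.comp (AdjoinRoot.of mu)) g := by
  have h1 : (Sh mu Del).toRingHom g = (g.map (algebraMap k (AdjoinRoot mu)[X])).eval
      (C (xR mu) + C (aeval (xR mu) Del ^ 2) * X) := by
    show aeval _ g = _
    rw [aeval_def, eval_map]
  have h2 : (C.comp (AdjoinRoot.of mu)) g = (g.map (algebraMap k (AdjoinRoot mu)[X])).eval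
      (C (xR mu)) := by
    rw [eval_map]
    have h3 : (C.comp (AdjoinRoot.of mu) : k[X] →+* (AdjoinRoot mu)[X]) =
        eval₂RingHom (algebraMap k (AdjoinRoot mu)[X]) (C (xR mu)) := by
      refine Polynomial.ringHom_ext (fun a => ?_) ?_
      · rw [coe_eval₂RingHom, eval₂_C]
        rfl
      · rw [coe_eval₂RingHom, eval₂_X]
        rfl
    rw [h3, coe_eval₂RingHom]
  rw [h1, h2]
  have h4 := Polynomial.sub_dvd_eval_sub (C (xR mu) + C (aeval (xR mu) Del ^ 2) * X)
    (C (xR mu)) (g.map (algebraMap k (AdjoinRoot mu)[X]))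
  rwa [add_sub_cancel_left] at h4

theorem tau_eval {k : Type} [Field k] (mu : k[X][X]) (P : k[X][X]) :
    (P.map (C.comp (AdjoinRoot.of mu))).eval (C (yR mu)) = C (aeval (yR mu) P) := by
  rw [← Polynomial.map_map, eval_map, eval₂_hom, eval_map]
  rfl

theorem pf_HE1 : T_HE1 := by
  intro k _ d e D Del V hV
  set δ : AdjoinRoot D.mu := aeval (xR D.mu) Del with hδ
  set σ : k[X] →+* (AdjoinRoot D.mu)[X] := (Sh D.mu Del).toRingHom with hσ
  set τ : k[X] →+* (AdjoinRoot D.mu)[X] := C.comp (AdjoinRoot.of D.mu) with hτ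
  have hu : ∀ g : k[X], (C (δ ^ 2) * X : (AdjoinRoot D.mu)[X]) ∣ σ g - τ g :=
    sh_dvd D.mu Del
  have hroot : (D.mu.map τ).eval (C (yR D.mu)) = 0 := by
    rw [hτ, tau_eval]
    have h : aeval (yR D.mu) D.mu = 0 := by
      have h1 := AdjoinRoot.eval₂_root D.mu
      exact h1
    rw [h, C_0]
  constructor
  · obtain ⟨E0, hE0⟩ := dvd_map_eval σ τ _ hu D.mu (C (yR D.mu))
    rw [hroot, sub_zero] at hE0
    refine ⟨C V * E0, ?_⟩
    rw [hE0]
    ring
  · intro n s E hs hE
    obtain ⟨s', rfl⟩ := hs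
    set w : (AdjoinRoot D.mu)[X] := C (yR D.mu) + C δ * (X * s') with hw
    set h : (AdjoinRoot D.mu)[X] := -(C δ * C (E.coeff 0) * X ^ (n + 1)) with hh
    have ew : C (yR D.mu) + C δ * (X * s' - C (E.coeff 0) * X ^ (n + 1)) = w + h := by
      rw [hw, hh]
      ring
    rw [ew]
    obtain ⟨K, hK⟩ := Polynomial.binomExpansion (D.mu.map σ) w h
    -- the derivative
    obtain ⟨K0, hK0⟩ := dvd_map_eval σ τ _ hu (derivative D.mu) w
    obtain ⟨K1, hK1⟩ := Polynomial.sub_dvd_eval_sub w (C (yR D.mu))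
      ((derivative D.mu).map τ)
    have hw2 : w - C (yR D.mu) = C δ * (X * s') := by
      rw [hw]
      ring
    rw [hw2, tau_eval] at hK1
    rw [derivative_map] at hK
    have hder : C V * ((derivative D.mu).map σ).eval w =
        C δ + C δ * X * (C V * (C δ * K0 + s' * K1)) := by
      have h1 : ((derivative D.mu).map σ).eval w =
          C (aeval (yR D.mu) (derivative D.mu)) + (C δ * (X * s') * K1 +
            C (δ ^ 2) * X * K0) := by
        linear_combination hK0 + hK1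
      have h2 : (C V * C (aeval (yR D.mu) (derivative D.mu)) : (AdjoinRoot D.mu)[X]) = C δ := by
        rw [← C_mul, hV]
      rw [h1, C_pow]
      linear_combination h2
    refine ⟨divX E - (C V * (C δ * K0 + s' * K1)) * C (E.coeff 0) +
      C V * K * C (E.coeff 0) ^ 2 * X ^ n, ?_⟩
    have hE2 : divX E * X + C (E.coeff 0) = E := divX_mul_X_add E
    rw [hK]
    rw [C_pow] at hE ⊢
    have e1 : (X : (AdjoinRoot D.mu)[X]) ^ (n + 1) = X ^ n * X := pow_succ _ _
    have e2 : (X : (AdjoinRoot D.mu)[X]) ^ (n + 2) = X ^ n * X * X := by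
      rw [pow_succ, pow_succ]
    rw [hh, e2]
    rw [e1] at hE ⊢
    linear_combination hE - C δ * C (E.coeff 0) * (X ^ n * X) * hder -
      C δ ^ 2 * (X ^ n * X) * hE2

end Pool.Agent.H64.CST
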